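import Mathlib
import Pool.Agent.Q58.Scal.BBDefs
import Pool.Agent.Q58.Scal.VDefs
import Pool.Agent.Q58.Scal.Strict

/-!
# Voisin's conjecture for quotients of products of curves

Let `C_t`, `t ∈ T`, be finitely many smooth proper integral curves over an algebraically closed
field `k` (for instance `ℂ`), `X = ∏_t C_t^{n_t}` of dimension `N`, and `π : X → Y` a morphism.  Let
`c` be a linear combination, with nonzero sum of coefficients, of scalar endomorphisms `f` of `X`
with `π f = π`, for instance the sum of the elements of a finite group `G` of scalar automorphisms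
and `Y = X / G`.  Suppose that `c` acts as zero on `H^{i,0}(X)` for `0 < i < N` (for `Y = X / G`
this means `h^{i,0}(Y) = 0`), and let `p` be the rank of `c` on `H^{N,0}(X)` (the geometric genus
of `X / G`).  Then for `m > p` and images `a_1, ..., a_m` in `Y` of zero-cycles of degree zero on
`X`
  `∑_σ sgn(σ)^{N+1} a_{σ(1)} × ... × a_{σ(m)} = 0` in `CH_0(Y^m)_ℚ`.
For `p = 1` and `m = 2` this is `a_1 × a_2 = (-1)^N a_2 × a_1`.
-/

namespace Pool.Agent.Results.MP_ef4640_ag.QuotientsOfProducts

open AlgebraicGeometry CategoryTheory Limits Q58.Chow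

universe u

theorem result {k : Type u} [Field k] [IsAlgClosed k] {T : Type} [Fintype T] [DecidableEq T]
    (C : T → Sch k) [∀ t, IsCurve (C t)] (g : T → ℕ) (hg : ∀ t, genus (C t) = g t)
    (n : T → ℕ) (N : ℕ) (hN : ∑ t, n t = N) (Y : Sch k) (π : powX C n ⟶ Y)
    (c : PowMor C n n →₀ ℚ) (hπ : ∀ f ∈ c.support, f.hom ≫ π = π)
    (hc : (c.sum fun _ a => a) ≠ 0) (hforms : ∀ i, 0 < i → i < N → ZeroOnForms c g i)
    (m : ℕ) (hm : (topForms c g).rank < m) (b : Fin m → (Pt (powX C n) →₀ ℚ))
    (hb : ∀ j, ((b j).sum fun _ a => a) = 0) :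
    cl (powS Y m) (∑ σ : Equiv.Perm (Fin m), ((Equiv.Perm.sign σ : ℤ) : ℚ) ^ (N + 1) •
      extCycle fun j => push π (b (σ j))) = 0 := by
  subst hN
  have h := voisin_strict (ι := fun t => Fin (n t)) hg hπ hc
    (fun i h1 h2 => hforms i h1 (by simpa using h2)) hm b hb
  simpa only [Fintype.card_fin] using h

end Pool.Agent.Results.MP_ef4640_ag.QuotientsOfProducts
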